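import Pool.Agent.Q158.Grid

/-!
# MP_0b0399_co: strong diamond-free families in the plane grid

The strong limit in dimension two, if it exists, is at least `3`, not `2 + 1/2`.
-/

namespace Pool.Agent.Results.MP_0b0399_co.StrongPlane

open Q158.Grid Filter

/-- `La*([k]^2, D₂) ≥ 3k - 4` while the width of `[k]^2` is `k`. Hence the ratio does not converge
to `2 + 1/2`, and the conjectured formula (both limits exist and equal `2 + 1/d` for every
`d ≥ 2`) is false. -/
theorem result :
    (∀ k : ℕ, 2 ≤ k → 3 * k - 4 ≤ LaStar Diamond k 2) ∧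
    (∀ k : ℕ, width k 2 = k) ∧
    (¬ Tendsto (fun k : ℕ => (LaStar Diamond k 2 : ℝ) / (width k 2 : ℝ)) atTop
      (nhds (2 + 1 / 2))) ∧
    ¬ ∀ d : ℕ, 2 ≤ d →
      Tendsto (fun k : ℕ => (La Diamond k d : ℝ) / (width k d : ℝ)) atTop
        (nhds (2 + 1 / (d : ℝ))) ∧
      Tendsto (fun k : ℕ => (LaStar Diamond k d : ℝ) / (width k d : ℝ)) atTop
        (nhds (2 + 1 / (d : ℝ))) :=
  result_aux

end Pool.Agent.Results.MP_0b0399_co.StrongPlane
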